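import Mathlib

open Complex Set Filter Topology

namespace Pool.Agent.Results.MP_9ed304_an.SpineNbhd

/-- `|a|^{1/2n} e^{i psi/2n}`, with `psi` the principal argument of `a`. -/
noncomputable def root (n : ℕ) (a : ℂ) : ℂ :=
  ((‖a‖ ^ (1 / (2 * (n : ℝ))) : ℝ) : ℂ) *
    Complex.exp (((Complex.arg a / (2 * (n : ℝ)) : ℝ) : ℂ) * Complex.I)

/-- The principal square root of `a`. -/
noncomputable def sqrtP (a : ℂ) : ℂ := a ^ (1 / 2 : ℂ)

/-- `b = |a|^{1/2n} e^{i psi/2n} - 2 sqrt a`. -/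
noncomputable def b (n : ℕ) (a : ℂ) : ℂ := root n a - 2 * sqrtP a

/-- The map `z ^ n + a / z ^ n + b`. -/
noncomputable def r (n : ℕ) (a z : ℂ) : ℂ := z ^ n + a / z ^ n + b n a

/-- The free critical value `b - 2 sqrt a`. -/
noncomputable def vMinus (n : ℕ) (a : ℂ) : ℂ := b n a - 2 * sqrtP a

/-- The forward orbit of `z` never meets the pole `0` (which the rational map sends to
infinity) and is bounded. -/
def BoundedOrbit (n : ℕ) (a z : ℂ) : Prop :=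
  ∃ C : ℝ, ∀ k : ℕ, (r n a)^[k] z ≠ 0 ∧ ‖(r n a)^[k] z‖ ≤ C

/-- The boundedness locus. -/
def M (n : ℕ) : Set ℂ := {a | a ≠ 0 ∧ BoundedOrbit n a (vMinus n a)}

/-- The spine. -/
def spine (n : ℕ) : Set ℂ :=
  {a | ∃ θ ∈ Icc (0 : ℝ) (2 * Real.pi),
    a = (1 / 16) * (root n a + Complex.exp ((θ : ℂ) * I)) ^ 2}

/-- The limiting cardioid. -/
def spineLim : Set ℂ :=
  {a | ∃ θ ∈ Icc (0 : ℝ) (2 * Real.pi), a = (1 / 16) * (1 + Complex.exp ((θ : ℂ) * I)) ^ 2}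

/-! ### Basic facts on the roots -/

lemma root_eq {n : ℕ} {a : ℂ} (ha : a ≠ 0) : root n a = Complex.exp (Complex.log a / (2 * n)) := by
  have h1 : (0 : ℝ) < ‖a‖ := norm_pos_iff.mpr ha
  unfold root
  rw [Real.rpow_def_of_pos h1, Complex.ofReal_exp, ← Complex.exp_add]
  congr 1
  rw [Complex.log]
  push_cast
  ring

lemma norm_root {n : ℕ} {a : ℂ} : ‖root n a‖ = ‖a‖ ^ (1 / (2 * (n : ℝ))) := by
  unfold root
  rw [norm_mul, Complex.norm_exp_ofReal_mul_I, mul_one, Complex.norm_real, Real.norm_eq_abs,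
    abs_of_nonneg (Real.rpow_nonneg (norm_nonneg a) _)]

lemma sqrtP_sq (a : ℂ) : sqrtP a ^ 2 = a := by
  unfold sqrtP
  rw [← Complex.cpow_nat_mul]
  norm_num

lemma norm_sqrtP (a : ℂ) : ‖sqrtP a‖ ^ 2 = ‖a‖ := by
  rw [← norm_pow, sqrtP_sq]

/-- A square root with positive real part is the principal one. -/
lemma sqrtP_of_re_pos {w : ℂ} (hw : 0 < w.re) : sqrtP (w ^ 2) = w := by
  have hw0 : w ≠ 0 := by
    rintro rfl
    simp at hw
  have harg : |w.arg| < Real.pi / 2 := Complex.abs_arg_lt_pi_div_two_iff.mpr (Or.inl hw)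
  rw [abs_lt] at harg
  have := Complex.pow_cpow_nat_inv (x := w) (n := 2) two_ne_zero
    (by push_cast; linarith [harg.1]) (by push_cast; linarith [harg.2])
  unfold sqrtP
  rw [show (1 / 2 : ℂ) = (((2 : ℕ) : ℂ)⁻¹) by norm_num]
  exact this

lemma norm_root_le {n : ℕ} (hn : 3 ≤ n) {a : ℂ} {s : ℝ} (hs : 1 ≤ s) (ha : ‖a‖ ≤ s ^ 2) :
    ‖root n a‖ ≤ s := by
  have hn' : (3 : ℝ) ≤ n := by exact_mod_cast hn
  rw [norm_root]
  calc ‖a‖ ^ (1 / (2 * (n : ℝ))) ≤ (s ^ 2) ^ (1 / (2 * (n : ℝ))) :=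
        Real.rpow_le_rpow (norm_nonneg a) ha (by positivity)
    _ = s ^ (1 / (n : ℝ)) := by
        rw [← Real.rpow_natCast s 2, ← Real.rpow_mul (by linarith)]
        congr 1
        push_cast
        field_simp
    _ ≤ s ^ (1 : ℝ) := by
        apply Real.rpow_le_rpow_of_exponent_le hs
        rw [div_le_one (by linarith)]
        linarith
    _ = s := Real.rpow_one s

lemma norm_sqrtP_le {a : ℂ} {s : ℝ} (hs : 1 ≤ s) (ha : ‖a‖ ≤ s ^ 2) : ‖sqrtP a‖ ≤ s := by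
  have h1 : ‖sqrtP a‖ ^ 2 ≤ s ^ 2 := by rw [norm_sqrtP]; exact ha
  exact (pow_le_pow_iff_left₀ (norm_nonneg _) (by linarith) two_ne_zero).mp h1

lemma norm_b_le {n : ℕ} (hn : 3 ≤ n) {a : ℂ} {s : ℝ} (hs : 1 ≤ s) (ha : ‖a‖ ≤ s ^ 2) :
    ‖b n a‖ ≤ 3 * s := by
  unfold b
  calc ‖root n a - 2 * sqrtP a‖ ≤ ‖root n a‖ + ‖2 * sqrtP a‖ := norm_sub_le _ _
    _ = ‖root n a‖ + 2 * ‖sqrtP a‖ := by rw [norm_mul]; norm_num
    _ ≤ s + 2 * s := by linarith [norm_root_le hn hs ha, norm_sqrtP_le hs ha]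
    _ = 3 * s := by ring

lemma step {n : ℕ} (hn : 3 ≤ n) {a : ℂ} {s : ℝ} (hs : 1 ≤ s) (ha : ‖a‖ ≤ s ^ 2) {z : ℂ}
    (hz : 3 * s ≤ ‖z‖) : 2 * ‖z‖ ≤ ‖r n a z‖ := by
  have hz3 : 3 ≤ ‖z‖ := by linarith
  have hb := norm_b_le hn hs ha
  have hpow : ‖z‖ ^ 3 ≤ ‖z‖ ^ n := pow_le_pow_right₀ (by linarith) hn
  have hpow1 : 1 ≤ ‖z‖ ^ n := one_le_pow₀ (by linarith)
  have h1 : ‖a / z ^ n‖ ≤ s ^ 2 := by
    rw [norm_div, norm_pow]
    calc ‖a‖ / ‖z‖ ^ n ≤ ‖a‖ / 1 := by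
          apply div_le_div_of_nonneg_left (norm_nonneg a) one_pos hpow1
      _ ≤ s ^ 2 := by rw [div_one]; exact ha
  have h2 : ‖z ^ n‖ ≤ ‖r n a z‖ + ‖a / z ^ n‖ + ‖b n a‖ := by
    have : z ^ n = r n a z - a / z ^ n - b n a := by unfold r; ring
    calc ‖z ^ n‖ = ‖r n a z - a / z ^ n - b n a‖ := by rw [← this]
      _ ≤ ‖r n a z - a / z ^ n‖ + ‖b n a‖ := norm_sub_le _ _
      _ ≤ ‖r n a z‖ + ‖a / z ^ n‖ + ‖b n a‖ := by linarith [norm_sub_le (r n a z) (a / z ^ n)]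
  rw [norm_pow] at h2
  nlinarith [mul_self_nonneg (‖z‖ - 3), mul_nonneg (sub_nonneg.mpr hz3) (sub_nonneg.mpr hz3)]

lemma not_bounded_of_large {n : ℕ} (hn : 3 ≤ n) {a : ℂ} {s : ℝ} (hs : 1 ≤ s)
    (ha : ‖a‖ ≤ s ^ 2) {z : ℂ} (hz : 3 * s ≤ ‖z‖) (C : ℝ) :
    ∃ k : ℕ, C < ‖(r n a)^[k] z‖ := by
  have key : ∀ k : ℕ, 2 ^ k * ‖z‖ ≤ ‖(r n a)^[k] z‖ := by
    intro k
    induction k with
    | zero => simp
    | succ k ih =>
      rw [Function.iterate_succ_apply']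
      have h1 : 3 * s ≤ ‖(r n a)^[k] z‖ := by
        refine le_trans hz (le_trans ?_ ih)
        have : (1 : ℝ) ≤ 2 ^ k := one_le_pow₀ (by norm_num)
        nlinarith [norm_nonneg z]
      have h2 := step hn hs ha h1
      calc (2 : ℝ) ^ (k + 1) * ‖z‖ = 2 * (2 ^ k * ‖z‖) := by ring
        _ ≤ 2 * ‖(r n a)^[k] z‖ := by linarith
        _ ≤ _ := h2
  obtain ⟨k, hk⟩ := pow_unbounded_of_one_lt C (one_lt_two : (1 : ℝ) < 2)
  refine ⟨k, lt_of_lt_of_le hk (le_trans ?_ (key k))⟩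
  have : (0 : ℝ) < 2 ^ k := by positivity
  nlinarith

lemma not_bounded0 {n : ℕ} (hn : 3 ≤ n) {a : ℂ} {s : ℝ} (hs : 1 ≤ s)
    (ha : ‖a‖ ≤ s ^ 2) {z : ℂ} (hz : 3 * s ≤ ‖z‖) : ¬ BoundedOrbit n a z := by
  rintro ⟨C, hC⟩
  obtain ⟨k, hk⟩ := not_bounded_of_large hn hs ha hz C
  exact absurd (hC k).2 (not_le.mpr hk)

lemma not_bounded1 {n : ℕ} (hn : 3 ≤ n) {a : ℂ} {s : ℝ} (hs : 1 ≤ s)
    (ha : ‖a‖ ≤ s ^ 2) {z : ℂ} (hz : 3 * s ≤ ‖r n a z‖) : ¬ BoundedOrbit n a z := by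
  rintro ⟨C, hC⟩
  obtain ⟨k, hk⟩ := not_bounded_of_large hn hs ha hz C
  rw [← Function.iterate_succ_apply] at hk
  exact absurd (hC (k + 1)).2 (not_le.mpr hk)

lemma vMinus_eq (n : ℕ) (a : ℂ) : vMinus n a = root n a - 4 * sqrtP a := by
  unfold vMinus b
  ring

lemma norm_lt_one_of_mem {n : ℕ} (hn : 3 ≤ n) {a : ℂ} (ha : a ∈ M n) : ‖a‖ < 1 := by
  by_contra hcon
  rw [not_lt] at hcon
  obtain ⟨-, hb⟩ := ha
  set s := ‖sqrtP a‖ with hsdef
  have hs2 : s ^ 2 = ‖a‖ := norm_sqrtP a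
  have hs0 : 0 ≤ s := norm_nonneg _
  have hs : 1 ≤ s := by nlinarith
  have ha' : ‖a‖ ≤ s ^ 2 := by rw [hs2]
  refine not_bounded0 hn hs ha' ?_ hb
  rw [vMinus_eq]
  have h1 : ‖4 * sqrtP a‖ ≤ ‖root n a - 4 * sqrtP a‖ + ‖root n a‖ := by
    have : 4 * sqrtP a = root n a - (root n a - 4 * sqrtP a) := by ring
    calc ‖4 * sqrtP a‖ = ‖root n a - (root n a - 4 * sqrtP a)‖ := by rw [← this]
      _ ≤ ‖root n a‖ + ‖root n a - 4 * sqrtP a‖ := norm_sub_le _ _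
      _ = _ := by ring
  have h2 : ‖4 * sqrtP a‖ = 4 * s := by rw [norm_mul]; norm_num [hsdef]
  have h3 := norm_root_le hn hs ha'
  linarith

/-- `root n a` is uniformly close to `1` on `ε ≤ |a| ≤ 1`. -/
lemma root_near {ε δ : ℝ} (hε : 0 < ε) (hδ : 0 < δ) :
    ∃ N : ℕ, ∀ n ≥ N, ∀ a : ℂ, ε ≤ ‖a‖ → ‖a‖ ≤ 1 → ‖root n a - 1‖ ≤ δ := by
  set L := |Real.log ε| + Real.pi with hL
  have hLpos : 0 < L := by positivity
  obtain ⟨N, hN⟩ := exists_nat_ge (L / δ + L + 1)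
  refine ⟨N, fun n hn a ha1 ha2 => ?_⟩
  have hnN : (N : ℝ) ≤ n := by exact_mod_cast hn
  have hn1 : L / δ + L + 1 ≤ n := hN.trans hnN
  have hLd : 0 < L / δ := by positivity
  have hn0 : (0 : ℝ) < n := by linarith
  have ha0 : a ≠ 0 := by
    rintro rfl
    simp at ha1
    linarith
  have hpos : 0 < ‖a‖ := norm_pos_iff.mpr ha0
  have hlog : ‖Complex.log a‖ ≤ L := by
    calc ‖Complex.log a‖ ≤ |(Complex.log a).re| + |(Complex.log a).im| :=
          Complex.norm_le_abs_re_add_abs_im _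
      _ ≤ |Real.log ε| + Real.pi := by
          rw [Complex.log_re, Complex.log_im]
          have h1 : |Complex.arg a| ≤ Real.pi := Complex.abs_arg_le_pi a
          have h2 : Real.log ‖a‖ ≤ 0 := Real.log_nonpos hpos.le ha2
          have h3 : Real.log ε ≤ Real.log ‖a‖ := Real.log_le_log hε ha1
          have h4 : |Real.log ‖a‖| ≤ |Real.log ε| := by
            rw [abs_of_nonpos h2, abs_of_nonpos (h3.trans h2)]
            linarith
          linarith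
  rw [root_eq ha0]
  have hx : ‖Complex.log a / (2 * (n : ℂ))‖ ≤ L / (2 * n) := by
    rw [norm_div, norm_mul]
    simp only [Complex.norm_ofNat, Complex.norm_natCast]
    gcongr
  have hx1 : ‖Complex.log a / (2 * (n : ℂ))‖ ≤ 1 := by
    refine hx.trans ?_
    rw [div_le_one (by positivity)]
    linarith
  calc ‖Complex.exp (Complex.log a / (2 * (n : ℂ))) - 1‖
      ≤ 2 * ‖Complex.log a / (2 * (n : ℂ))‖ := Complex.norm_exp_sub_one_le hx1
    _ ≤ 2 * (L / (2 * n)) := by gcongr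
    _ = L / n := by field_simp
    _ ≤ δ := by
        rw [div_le_iff₀ hn0]
        have : L / δ ≤ n := by linarith
        rw [div_le_iff₀ hδ] at this
        linarith

/-- For large `n`, parameters in the boundedness locus away from `0` have
`|1 - 4 sqrt a|` close to `1`. -/
lemma near_level {ε δ : ℝ} (hε : 0 < ε) (hδ : 0 < δ) :
    ∃ N : ℕ, 3 ≤ N ∧ ∀ n ≥ N, ∀ a ∈ M n, ε ≤ ‖a‖ → |‖1 - 4 * sqrtP a‖ - 1| ≤ δ := by
  obtain ⟨N₁, hN₁⟩ := root_near (ε := ε) (δ := δ / 2) hε (by positivity)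
  obtain ⟨N₂, hN₂⟩ := exists_nat_ge (16 / (ε * δ) + 16 / δ)
  refine ⟨max 3 (max N₁ N₂), le_max_left _ _, fun n hn a ha hεa => ?_⟩
  have hn3 : 3 ≤ n := le_trans (le_max_left _ _) hn
  have hnN₁ : N₁ ≤ n := le_trans (le_trans (le_max_left _ _) (le_max_right _ _)) hn
  have hnN₂ : N₂ ≤ n := le_trans (le_trans (le_max_right _ _) (le_max_right _ _)) hn
  have ha1 : ‖a‖ < 1 := norm_lt_one_of_mem hn3 ha
  have hroot := hN₁ n hnN₁ a hεa ha1.le
  have hnR : 16 / (ε * δ) + 16 / δ ≤ n := hN₂.trans (by exact_mod_cast hnN₂)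
  have hb3 : ‖b n a‖ ≤ 3 := by
    have := norm_b_le (s := 1) hn3 le_rfl (a := a) (by linarith)
    linarith
  have ha' : ‖a‖ ≤ (1 : ℝ) ^ 2 := by linarith
  have hεδ : 0 < 16 / (ε * δ) := by positivity
  have hδ16 : 0 < 16 / δ := by positivity
  have hnδ : 16 ≤ n * δ := by
    have : 16 / δ ≤ n := by linarith
    rwa [div_le_iff₀ hδ] at this
  have hnεδ : 16 ≤ n * (ε * δ) := by
    have : 16 / (ε * δ) ≤ n := by linarith
    rwa [div_le_iff₀ (by positivity)] at this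
  have hv : |‖vMinus n a‖ - ‖1 - 4 * sqrtP a‖| ≤ δ / 2 := by
    refine le_trans (abs_norm_sub_norm_le _ _) ?_
    rw [vMinus_eq]
    rw [show root n a - 4 * sqrtP a - (1 - 4 * sqrtP a) = root n a - 1 by ring]
    exact hroot
  obtain ⟨ha0, hbd⟩ := ha
  have hv0 : vMinus n a ≠ 0 := by
    obtain ⟨C, hC⟩ := hbd
    exact (hC 0).1
  have hvpos : 0 < ‖vMinus n a‖ := norm_pos_iff.mpr hv0
  set v := vMinus n a with hvdef
  by_contra hcon
  rw [not_le] at hcon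
  rw [abs_le] at hv
  apply not_bounded1 hn3 le_rfl ha' (z := v) _ hbd
  have hr : ‖v ^ n‖ ≤ ‖r n a v‖ + ‖a / v ^ n‖ + ‖b n a‖ := by
    have : v ^ n = r n a v - a / v ^ n - b n a := by unfold r; ring
    calc ‖v ^ n‖ = ‖r n a v - a / v ^ n - b n a‖ := by rw [← this]
      _ ≤ ‖r n a v - a / v ^ n‖ + ‖b n a‖ := norm_sub_le _ _
      _ ≤ ‖r n a v‖ + ‖a / v ^ n‖ + ‖b n a‖ := by linarith [norm_sub_le (r n a v) (a / v ^ n)]
  have hr' : ‖a / v ^ n‖ ≤ ‖r n a v‖ + ‖v ^ n‖ + ‖b n a‖ := by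
    have : a / v ^ n = r n a v - v ^ n - b n a := by unfold r; ring
    calc ‖a / v ^ n‖ = ‖r n a v - v ^ n - b n a‖ := by rw [← this]
      _ ≤ ‖r n a v - v ^ n‖ + ‖b n a‖ := norm_sub_le _ _
      _ ≤ ‖r n a v‖ + ‖v ^ n‖ + ‖b n a‖ := by linarith [norm_sub_le (r n a v) (v ^ n)]
  rw [norm_pow, norm_div, norm_pow] at hr hr'
  have hbern : 1 + (n : ℝ) * (δ / 2) ≤ (1 + δ / 2) ^ n :=
    one_add_mul_le_pow (by linarith) n
  rcases lt_abs.mp hcon with h | h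
  · -- `|v|` is large
    have hv1 : 1 + δ / 2 ≤ ‖v‖ := by linarith [hv.1]
    have h1 : (1 + δ / 2) ^ n ≤ ‖v‖ ^ n := pow_le_pow_left₀ (by positivity) hv1 n
    have h2 : ‖a‖ / ‖v‖ ^ n ≤ 1 := by
      rw [div_le_one (by positivity)]
      nlinarith
    nlinarith
  · -- `|v|` is small
    have hv1 : ‖v‖ ≤ 1 - δ / 2 := by linarith [hv.2]
    have h1 : ‖v‖ ^ n ≤ 1 := pow_le_one₀ hvpos.le (by linarith)
    have h2 : ‖v‖ * (1 + δ / 2) ≤ 1 := by nlinarith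
    have h3 : ‖v‖ ^ n * (1 + δ / 2) ^ n ≤ 1 := by
      rw [← mul_pow]
      exact pow_le_one₀ (by positivity) h2
    have h4 : ε * (1 + δ / 2) ^ n ≤ ‖a‖ / ‖v‖ ^ n := by
      rw [le_div_iff₀ (by positivity)]
      calc ε * (1 + δ / 2) ^ n * ‖v‖ ^ n = ε * (‖v‖ ^ n * (1 + δ / 2) ^ n) := by ring
        _ ≤ ε * 1 := by gcongr
        _ ≤ ‖a‖ := by linarith
    have h5 : 8 ≤ ε * (1 + δ / 2) ^ n := by
      calc (8 : ℝ) ≤ ε * (n * (δ / 2)) := by nlinarith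
        _ ≤ ε * (1 + n * (δ / 2)) := by nlinarith
        _ ≤ ε * (1 + δ / 2) ^ n := by gcongr
    linarith

lemma exists_angle {u : ℂ} (hu : ‖u‖ = 1) :
    ∃ θ ∈ Icc (0 : ℝ) (2 * Real.pi), Complex.exp ((θ : ℂ) * I) = u := by
  have hpi := Real.pi_pos
  have h0 : Complex.exp ((Complex.arg u : ℂ) * I) = u := by
    have := Complex.norm_mul_exp_arg_mul_I u
    rwa [hu, Complex.ofReal_one, one_mul] at this
  have h1 := Complex.neg_pi_lt_arg u
  have h2 := Complex.arg_le_pi u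
  by_cases h : 0 ≤ Complex.arg u
  · exact ⟨Complex.arg u, ⟨h, by linarith⟩, h0⟩
  · refine ⟨Complex.arg u + 2 * Real.pi, ⟨by linarith, by linarith⟩, ?_⟩
    push_cast
    rw [add_mul, Complex.exp_add, h0, Complex.exp_two_pi_mul_I, mul_one]

lemma norm_exp_angle (θ : ℝ) : ‖Complex.exp ((θ : ℂ) * I)‖ = 1 :=
  Complex.norm_exp_ofReal_mul_I θ

lemma zero_mem_spineLim : (0 : ℂ) ∈ spineLim := by
  refine ⟨Real.pi, ⟨Real.pi_pos.le, by linarith [Real.pi_pos]⟩, ?_⟩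
  rw [Complex.exp_pi_mul_I]
  ring

/-- Distance from a parameter to the cardioid. -/
lemma dist_spineLim {a : ℂ} (ha : ‖a‖ ≤ 1) (hw : 4 * sqrtP a - 1 ≠ 0) :
    ∃ x ∈ spineLim, ‖a - x‖ ≤ |‖1 - 4 * sqrtP a‖ - 1| / 2 := by
  set w := 4 * sqrtP a - 1 with hwdef
  have hwn : ‖w‖ ≠ 0 := norm_ne_zero_iff.mpr hw
  have hwpos : 0 < ‖w‖ := norm_pos_iff.mpr hw
  have ha' : a = (1 / 16) * (1 + w) ^ 2 := by
    rw [hwdef]
    calc a = sqrtP a ^ 2 := (sqrtP_sq a).symm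
      _ = _ := by ring
  have hu : ‖w / (‖w‖ : ℂ)‖ = 1 := by
    rw [norm_div, Complex.norm_real, norm_norm, div_self hwn]
  obtain ⟨θ, hθ, hθu⟩ := exists_angle hu
  have hsq : ‖sqrtP a‖ ≤ 1 := norm_sqrtP_le le_rfl (by linarith)
  have hwle : ‖w‖ ≤ 5 := by
    rw [hwdef]
    calc ‖4 * sqrtP a - 1‖ ≤ ‖4 * sqrtP a‖ + ‖(1 : ℂ)‖ := norm_sub_le _ _
      _ = 4 * ‖sqrtP a‖ + 1 := by rw [norm_mul]; norm_num
      _ ≤ 5 := by linarith
  refine ⟨(1 / 16) * (1 + Complex.exp ((θ : ℂ) * I)) ^ 2, ⟨θ, hθ, rfl⟩, ?_⟩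
  rw [hθu]
  set u := w / (‖w‖ : ℂ) with hudef
  have hwu : w = (‖w‖ : ℂ) * u := by
    have hwc : (‖w‖ : ℂ) ≠ 0 := by exact_mod_cast hwn
    rw [hudef]
    field_simp
  have h1 : a - (1 / 16) * (1 + u) ^ 2 = (1 / 16) * ((w - u) * (2 + w + u)) := by
    rw [ha']
    ring
  have h2 : ‖w - u‖ = |‖w‖ - 1| := by
    have : w - u = ((‖w‖ - 1 : ℝ) : ℂ) * u := by
      push_cast
      rw [sub_mul, ← hwu, one_mul]
    rw [this, norm_mul, hu, mul_one, Complex.norm_real, Real.norm_eq_abs]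
  have h3 : ‖2 + w + u‖ ≤ 8 := by
    calc ‖2 + w + u‖ ≤ ‖2 + w‖ + ‖u‖ := norm_add_le _ _
      _ ≤ ‖(2 : ℂ)‖ + ‖w‖ + ‖u‖ := by linarith [norm_add_le (2 : ℂ) w]
      _ ≤ 2 + 5 + 1 := by
          rw [hu, Complex.norm_ofNat]
          linarith
      _ = 8 := by norm_num
  have h4 : ‖1 - 4 * sqrtP a‖ = ‖w‖ := by
    rw [hwdef, ← norm_neg]
    congr 1
    ring
  rw [h1, norm_mul, norm_mul, h2, h4]
  have h5 : ‖(1 / 16 : ℂ)‖ = 1 / 16 := by norm_num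
  rw [h5]
  nlinarith [abs_nonneg (‖w‖ - 1)]

theorem subset_thickening_spineLim {ε : ℝ} (hε : 0 < ε) :
    ∃ N : ℕ, 3 ≤ N ∧ ∀ n ≥ N, ∀ a ∈ M n, ∃ x ∈ spineLim, dist a x < ε := by
  set ε' := min ε 1 with hε'
  have hε'0 : 0 < ε' := lt_min hε one_pos
  have hε'1 : ε' ≤ 1 := min_le_right _ _
  have hε'2 : ε' ≤ ε := min_le_left _ _
  obtain ⟨N, hN3, hN⟩ := near_level (ε := ε') (δ := ε' / 2) hε'0 (by positivity)
  refine ⟨N, hN3, fun n hn a ha => ?_⟩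
  have ha1 := norm_lt_one_of_mem (hN3.trans hn) ha
  by_cases h : ‖a‖ < ε'
  · exact ⟨0, zero_mem_spineLim, by rw [dist_zero_right]; linarith⟩
  · rw [not_lt] at h
    have h1 := hN n hn a ha h
    have hw : 4 * sqrtP a - 1 ≠ 0 := by
      intro h0
      have : 1 - 4 * sqrtP a = 0 := by linear_combination -h0
      rw [this, norm_zero, zero_sub, abs_neg, abs_one] at h1
      linarith
    obtain ⟨x, hx, hxa⟩ := dist_spineLim ha1.le hw
    refine ⟨x, hx, ?_⟩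
    rw [dist_eq_norm]
    linarith

/-- Points of the cardioid away from the cusp are close to the spine for large `n`. -/
lemma near_spine {κ δ : ℝ} (hκ : 0 < κ) (hδ : 0 < δ) (hδκ : δ ≤ κ / 2) (hκ1 : κ ≤ 1) :
    ∃ N : ℕ, ∀ n ≥ N, ∀ θ : ℝ, -1 + κ ≤ Real.cos θ →
      ∃ t ∈ Icc (1 - δ) (1 + δ),
        (1 / 16) * (1 + (t : ℂ) * Complex.exp ((θ : ℂ) * I)) ^ 2 ∈ spine n := by
  obtain ⟨N, hN⟩ := root_near (ε := κ ^ 2 / 64) (δ := δ / 2) (by positivity) (by positivity)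
  refine ⟨max 1 N, fun n hn θ hθ => ?_⟩
  have hnN : N ≤ n := le_trans (le_max_right _ _) hn
  set u := Complex.exp ((θ : ℂ) * I) with hu
  have hu1 : ‖u‖ = 1 := norm_exp_angle θ
  have hure : u.re = Real.cos θ := Complex.exp_ofReal_mul_I_re θ
  let w : ℝ → ℂ := fun t => 1 + (t : ℂ) * u
  let A : ℝ → ℂ := fun t => (1 / 16) * (w t) ^ 2
  have hAw : ∀ t, A t = (w t / 4) ^ 2 := fun t => by
    show (1 / 16) * (w t) ^ 2 = (w t / 4) ^ 2
    ring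
  have hre : ∀ t ∈ Icc (1 - δ) (1 + δ), κ / 2 ≤ (w t).re := by
    intro t ht
    have h1 : (w t).re = 1 + t * Real.cos θ := by
      show (1 + (t : ℂ) * u).re = _
      rw [Complex.add_re, Complex.one_re, Complex.re_ofReal_mul, hure]
    rw [h1]
    rcases le_or_gt 0 (Real.cos θ) with hc | hc
    · have ht0 : 0 ≤ t := by linarith [ht.1]
      nlinarith
    · have ht1 := ht.2
      nlinarith
  have hpos : ∀ t ∈ Icc (1 - δ) (1 + δ), 0 < (w t / 4).re := by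
    intro t ht
    have h1 := hre t ht
    have h2 : (w t / 4).re = (w t).re / 4 := by
      rw [show (4 : ℂ) = ((4 : ℝ) : ℂ) by norm_num, Complex.div_ofReal_re]
    rw [h2]
    linarith
  have hsqrt : ∀ t ∈ Icc (1 - δ) (1 + δ), sqrtP (A t) = w t / 4 := by
    intro t ht
    rw [hAw t]
    exact sqrtP_of_re_pos (hpos t ht)
  have hAnorm : ∀ t, ‖A t‖ = ‖w t‖ ^ 2 / 16 := by
    intro t
    show ‖(1 / 16) * (w t) ^ 2‖ = _
    rw [norm_mul, norm_pow]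
    norm_num
    ring
  have hAlow : ∀ t ∈ Icc (1 - δ) (1 + δ), κ ^ 2 / 64 ≤ ‖A t‖ := by
    intro t ht
    rw [hAnorm]
    have h1 : κ / 2 ≤ ‖w t‖ := (hre t ht).trans (Complex.re_le_norm _)
    have h2 : (κ / 2) ^ 2 ≤ ‖w t‖ ^ 2 := pow_le_pow_left₀ (by positivity) h1 2
    nlinarith
  have hAup : ∀ t ∈ Icc (1 - δ) (1 + δ), ‖A t‖ ≤ 1 := by
    intro t ht
    rw [hAnorm]
    have h1 : ‖w t‖ ≤ 3 := by
      calc ‖w t‖ ≤ ‖(1 : ℂ)‖ + ‖(t : ℂ) * u‖ := norm_add_le _ _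
        _ = 1 + |t| := by rw [norm_mul, hu1, mul_one, Complex.norm_real, norm_one, Real.norm_eq_abs]
        _ ≤ 3 := by
          rw [abs_of_nonneg (by linarith [ht.1])]
          linarith [ht.2]
    nlinarith [norm_nonneg (w t)]
  have hroot : ∀ t ∈ Icc (1 - δ) (1 + δ), ‖root n (A t) - 1‖ ≤ δ / 2 := fun t ht =>
    hN n hnN (A t) (hAlow t ht) (hAup t ht)
  have hcont : ContinuousOn (fun t => ‖root n (A t) - w t‖) (Icc (1 - δ) (1 + δ)) := by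
    have hwc : Continuous w := by
      show Continuous (fun t : ℝ => 1 + (t : ℂ) * u)
      fun_prop
    have hAc : Continuous A := by
      show Continuous (fun t : ℝ => (1 / 16) * (w t) ^ 2)
      fun_prop
    apply ContinuousOn.norm
    apply ContinuousOn.sub _ hwc.continuousOn
    have hne : ∀ t ∈ Icc (1 - δ) (1 + δ), A t ∈ Complex.slitPlane := by
      intro t ht
      rw [hAw t]
      set z := w t / 4 with hz
      have hz0 : 0 < z.re := hpos t ht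
      rw [Complex.mem_slitPlane_iff]
      by_cases him : z.im = 0
      · left
        rw [pow_two, Complex.mul_re, him]
        nlinarith
      · right
        rw [pow_two, Complex.mul_im]
        have : z.re * z.im ≠ 0 := mul_ne_zero hz0.ne' him
        intro h
        apply this
        linarith
    have heq : ∀ t ∈ Icc (1 - δ) (1 + δ),
        root n (A t) = Complex.exp (Complex.log (A t) / (2 * n)) := by
      intro t ht
      exact root_eq (Complex.slitPlane_ne_zero (hne t ht))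
    refine ContinuousOn.congr ?_ heq
    apply ContinuousOn.cexp
    apply ContinuousOn.div_const
    exact ContinuousOn.clog hAc.continuousOn hne
  have hdiff : ∀ t ∈ Icc (1 - δ) (1 + δ), |‖root n (A t) - w t‖ - t| ≤ δ / 2 := by
    intro t ht
    have ht0 : 0 ≤ t := by linarith [ht.1]
    have h1 : ‖-((t : ℂ) * u)‖ = t := by
      rw [norm_neg, norm_mul, hu1, mul_one, Complex.norm_real, Real.norm_eq_abs, abs_of_nonneg ht0]
    calc |‖root n (A t) - w t‖ - t| = |‖root n (A t) - w t‖ - ‖-((t : ℂ) * u)‖| := by rw [h1]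
      _ ≤ ‖(root n (A t) - w t) - (-((t : ℂ) * u))‖ := abs_norm_sub_norm_le _ _
      _ = ‖root n (A t) - 1‖ := by
          congr 1
          show root n (A t) - (1 + (t : ℂ) * u) - (-((t : ℂ) * u)) = _
          ring
      _ ≤ δ / 2 := hroot t ht
  have hle : (1 - δ : ℝ) ≤ 1 + δ := by linarith
  have hl : (1 - δ) ∈ Icc (1 - δ) (1 + δ) := left_mem_Icc.mpr hle
  have hr : (1 + δ) ∈ Icc (1 - δ) (1 + δ) := right_mem_Icc.mpr hle
  have hIVT := intermediate_value_Icc hle hcont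
  have h1mem : (1 : ℝ) ∈ Icc (‖root n (A (1 - δ)) - w (1 - δ)‖) (‖root n (A (1 + δ)) - w (1 + δ)‖) := by
    have h1 := hdiff _ hl
    have h2 := hdiff _ hr
    rw [abs_le] at h1 h2
    constructor
    · linarith [h1.2]
    · linarith [h2.1]
  obtain ⟨t, ht, htv⟩ := hIVT h1mem
  simp only at htv
  refine ⟨t, ht, ?_⟩
  show A t ∈ spine n
  have hunit : ‖w t - root n (A t)‖ = 1 := by rw [norm_sub_rev]; exact htv
  obtain ⟨θ', hθ', hθ'u⟩ := exists_angle hunit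
  refine ⟨θ', hθ', ?_⟩
  rw [hθ'u]
  show (1 / 16) * (w t) ^ 2 = (1 / 16) * (root n (A t) + (w t - root n (A t))) ^ 2
  ring

lemma norm_one_add_exp_sq (θ : ℝ) :
    ‖(1 / 16) * (1 + Complex.exp ((θ : ℂ) * I)) ^ 2‖ = (1 + Real.cos θ) / 8 := by
  rw [norm_mul, norm_pow, ← Complex.normSq_eq_norm_sq, Complex.normSq_apply]
  rw [Complex.add_re, Complex.add_im, Complex.exp_ofReal_mul_I_re, Complex.exp_ofReal_mul_I_im,
    Complex.one_re, Complex.one_im]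
  have h := Real.sin_sq_add_cos_sq θ
  have h5 : ‖(1 / 16 : ℂ)‖ = 1 / 16 := by norm_num
  rw [h5]
  nlinarith

theorem subset_thickening_spine {ε : ℝ} (hε : 0 < ε) :
    ∃ N : ℕ, 3 ≤ N ∧ ∀ n ≥ N, ∀ a ∈ M n, ∃ x ∈ spine n, dist a x < ε := by
  set κ := min ε 1 with hκdef
  have hκ0 : 0 < κ := lt_min hε one_pos
  have hκ1 : κ ≤ 1 := min_le_right _ _
  have hκ2 : κ ≤ ε := min_le_left _ _
  obtain ⟨N₁, hN₁3, hN₁⟩ := subset_thickening_spineLim (ε := κ / 4) (by positivity)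
  obtain ⟨N₂, hN₂⟩ := near_spine (κ := κ) (δ := κ / 4) hκ0 (by positivity) (by linarith) hκ1
  refine ⟨max N₁ N₂, le_trans hN₁3 (le_max_left _ _), fun n hn a ha => ?_⟩
  obtain ⟨x, ⟨θ₀, -, hxθ⟩, hxa⟩ := hN₁ n (le_trans (le_max_left _ _) hn) a ha
  have hstep : ∀ θ : ℝ, -1 + κ ≤ Real.cos θ → ∃ y ∈ spine n,
      ‖y - (1 / 16) * (1 + Complex.exp ((θ : ℂ) * I)) ^ 2‖ ≤ κ / 8 := by
    intro θ hθ
    obtain ⟨t, ht, hts⟩ := hN₂ n (le_trans (le_max_right _ _) hn) θ hθ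
    refine ⟨_, hts, ?_⟩
    set u := Complex.exp ((θ : ℂ) * I) with hu
    have hu1 : ‖u‖ = 1 := norm_exp_angle θ
    have h1 : (1 / 16) * (1 + (t : ℂ) * u) ^ 2 - (1 / 16) * (1 + u) ^ 2 =
        (1 / 16) * ((((t - 1 : ℝ) : ℂ) * u) * (2 + ((1 + t : ℝ) : ℂ) * u)) := by
      push_cast
      ring
    have h2 : ‖(((t - 1 : ℝ) : ℂ) * u)‖ ≤ κ / 4 := by
      rw [norm_mul, hu1, mul_one, Complex.norm_real, Real.norm_eq_abs, abs_le]
      constructor <;> linarith [ht.1, ht.2]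
    have h3 : ‖(2 + ((1 + t : ℝ) : ℂ) * u)‖ ≤ 8 := by
      calc ‖(2 + ((1 + t : ℝ) : ℂ) * u)‖ ≤ ‖(2 : ℂ)‖ + ‖((1 + t : ℝ) : ℂ) * u‖ := norm_add_le _ _
        _ = 2 + |1 + t| := by
            rw [norm_mul, hu1, mul_one, Complex.norm_real, Real.norm_eq_abs, Complex.norm_ofNat]
        _ ≤ 8 := by
            rw [abs_of_nonneg (by linarith [ht.1])]
            linarith [ht.2]
    have h5 : ‖(1 / 16 : ℂ)‖ = 1 / 16 := by norm_num
    rw [h1, norm_mul, norm_mul, h5]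
    calc 1 / 16 * (‖(((t - 1 : ℝ) : ℂ) * u)‖ * ‖(2 + ((1 + t : ℝ) : ℂ) * u)‖)
        ≤ 1 / 16 * (κ / 4 * 8) := by gcongr
      _ = κ / 8 := by ring
  rw [dist_eq_norm] at hxa
  by_cases hc : -1 + κ ≤ Real.cos θ₀
  · obtain ⟨y, hy, hyx⟩ := hstep θ₀ hc
    rw [← hxθ] at hyx
    refine ⟨y, hy, ?_⟩
    rw [dist_eq_norm]
    calc ‖a - y‖ = ‖(a - x) - (y - x)‖ := by congr 1; ring
      _ ≤ ‖a - x‖ + ‖y - x‖ := norm_sub_le _ _
      _ < ε := by linarith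
  · rw [not_le] at hc
    have hcos : Real.cos (Real.arccos (-1 + κ)) = -1 + κ :=
      Real.cos_arccos (by linarith) (by linarith)
    obtain ⟨y, hy, hyx⟩ := hstep (Real.arccos (-1 + κ)) (by rw [hcos])
    set x' := (1 / 16) * (1 + Complex.exp ((Real.arccos (-1 + κ) : ℂ) * I)) ^ 2 with hx'
    have hx'n : ‖x'‖ = κ / 8 := by
      rw [hx', norm_one_add_exp_sq, hcos]
      ring
    have hxn : ‖x‖ ≤ κ / 8 := by
      rw [hxθ, norm_one_add_exp_sq]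
      linarith
    refine ⟨y, hy, ?_⟩
    rw [dist_eq_norm]
    calc ‖a - y‖ = ‖(a - x) + x - x' - (y - x')‖ := by congr 1; ring
      _ ≤ ‖(a - x) + x - x'‖ + ‖y - x'‖ := norm_sub_le _ _
      _ ≤ ‖(a - x) + x‖ + ‖x'‖ + ‖y - x'‖ := by linarith [norm_sub_le ((a - x) + x) x']
      _ ≤ ‖a - x‖ + ‖x‖ + ‖x'‖ + ‖y - x'‖ := by linarith [norm_add_le (a - x) x]
      _ < ε := by linarith

/-- For every `ε > 0` there is `N ≥ 3` such that for all `n ≥ N` the boundedness locus `M n` lies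
in the `ε`-neighbourhood of the spine and in the `ε`-neighbourhood of the limiting cardioid. -/
theorem result : ∀ ε : ℝ, 0 < ε → ∃ N : ℕ, 3 ≤ N ∧ ∀ n : ℕ, N ≤ n →
    M n ⊆ Metric.thickening ε (spine n) ∧ M n ⊆ Metric.thickening ε spineLim := by
  intro ε hε
  obtain ⟨N₁, hN₁3, hN₁⟩ := subset_thickening_spineLim hε
  obtain ⟨N₂, hN₂3, hN₂⟩ := subset_thickening_spine hε
  refine ⟨max N₁ N₂, le_trans hN₁3 (le_max_left _ _), fun n hn => ⟨fun a ha => ?_, fun a ha => ?_⟩⟩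
  · rw [Metric.mem_thickening_iff]
    exact hN₂ n (le_trans (le_max_right _ _) hn) a ha
  · rw [Metric.mem_thickening_iff]
    exact hN₁ n (le_trans (le_max_left _ _) hn) a ha

end Pool.Agent.Results.MP_9ed304_an.SpineNbhd
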